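import Mathlib
import Pool.Agent.Q219.NS.Rank
import Pool.Agent.TH44.SS.Tate

/-!
# Good families of trace polynomials
-/

set_option autoImplicit false

namespace Pool.Agent.Q219.NS

open Polynomial Module Pool.Agent.W484.AA Pool.Agent.W484.BB Pool.Agent.W521.Frob
  Pool.Agent.W521.Count Pool.Agent.W521.Bad Pool.Agent.W521.Descent Pool.Agent.W521.Density
  Pool.Agent.W521.Criterion Pool.Agent.W484.HS Pool.Agent.W484.TB Pool.Agent.TH44.SS

/-- Flips at primes of the set `U`, irreducibility, and no supersingular roots. -/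
def Good (U : Set ℕ) {I : Type} (q : ℕ) (h : I → ℤ[X]) : Prop :=
  (∀ i, ∃ l : ℕ, l.Prime ∧ l ≠ 2 ∧ ¬ l ∣ q ∧ l ∈ U ∧ FlipPattern q h i l) ∧
    (∀ i, Irreducible ((h i).map (Int.castRingHom ℚ))) ∧
    ∀ i (z : ℂ), aeval z (weil q (h i)) = 0 → ∀ t : ℕ, 0 < t → (z ^ 2) ^ t ≠ (q : ℂ) ^ t

/-- **The relations.** -/
theorem exactPair_good {I : Type} [Finite I] (E : IntermediateField ℚ ℂ)
    [FiniteDimensional ℚ E] {q : ℕ} (hq : q ≠ 0) (r : ℕ) (h : I → ℤ[X]) (hm : ∀ i, (h i).Monic)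
    (hr : ∀ i, r < (h i).natDegree) (hx : Good (splitPrimes E) q h)
    (s : ℕ) (hs : 0 < s) (χ : ℚ[X]) (hχ : χ ≠ 0)
    (hrank : RankLEOver E r {ρ : ℂ | aeval ρ χ = 0}) (ρ : ℂ) (hρ : aeval ρ χ = 0) :
    ExactPair (fun z : {z : ℂ // ∃ i, aeval z (weil q (h i)) = 0} => (z : ℂ) ^ s)
      ((q : ℂ) ^ s) ρ := by
  obtain ⟨hpat, hirr, hns⟩ := hx
  have hρ0 : ρ ≠ 0 := by
    rintro rfl
    exact zero_not_rank_over hrank hρ
  obtain ⟨u, hu0, hu⟩ := hrank
  intro n c N hN hn ys hlen hrel hpw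
  let X := {z : ℂ // ∃ i, aeval z (weil q (h i)) = 0}
  refine no_relation_rank_over hq hm hirr (gal E) (algebraMap (gal E) ℂ) hpat hns r hr χ hχ u hu0 (fun ρ hρ => ?_) ρ hρ hρ0 s hs hn c N hN
    (fun l => ((ys.get (Fin.cast hlen.symm l) : X) : ℂ))
    (fun l => (ys.get (Fin.cast hlen.symm l)).2) ?_ ?_
  · obtain ⟨N, y, m, hN, hyE, hy0, h2⟩ := hu ρ hρ
    refine ⟨N, ⟨y, le_gal E hyE⟩, m, hN, ?_, h2⟩
    intro h
    exact hy0 (congrArg Subtype.val h)
  · rw [← hrel]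
    congr 2
    have h6 : ∏ l : Fin n, ((ys.get (Fin.cast hlen.symm l) : X) : ℂ) =
        (ys.map (fun y : X => (y : ℂ))).prod := by
      have h61 : ∏ l : Fin n, ((ys.get (Fin.cast hlen.symm l) : X) : ℂ) =
          ∏ l : Fin ys.length, ((ys.get l : X) : ℂ) :=
        Fintype.prod_equiv (finCongr hlen.symm) _ _ fun l => rfl
      rw [h61, ← List.prod_ofFn]
      congr 1
      apply List.ext_getElem
      · simp
      · intro i h1 h2
        simp
    rw [h6]
    have h7 : ∀ ys : List X, (ys.map (fun y : X => (y : ℂ))).prod ^ s =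
        (ys.map (fun y : X => (y : ℂ) ^ s)).prod := by
      intro ys
      induction ys with
      | nil => simp
      | cons y ys ih =>
        rw [List.map_cons, List.prod_cons, mul_pow, ih, List.map_cons, List.prod_cons]
    exact h7 ys
  · have hbad : ∀ k' l' : Fin ys.length, k' < l' →
        ((ys.get k' : X) : ℂ) * ((ys.get l' : X) : ℂ) ≠ q := by
      intro k' l' hkl h8
      refine (List.pairwise_iff_get.1 hpw) k' l' hkl ?_
      change ((ys.get k' : X) : ℂ) ^ s * ((ys.get l' : X) : ℂ) ^ s = _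
      rw [← mul_pow, h8]
    intro k' l' hkl
    rcases lt_or_gt_of_ne hkl with h | h
    · exact hbad _ _ h
    · intro h8
      rw [mul_comm] at h8
      exact hbad _ _ h h8

theorem tateForRankOver_good {I : Type} [Finite I] (E : IntermediateField ℚ ℂ)
    [FiniteDimensional ℚ E] {q : ℕ} (hq : q ≠ 0) (r : ℕ) (h : I → ℤ[X]) (hm : ∀ i, (h i).Monic)
    (hr : ∀ i, r < (h i).natDegree) (hx : Good (splitPrimes E) q h) :
    TateForRankOver E q r (fun i => weil q (h i)) := by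
  intro V _ _ _ F hF s hs H _ _ _ G hG n c N hN u hu
  have hQ : (q : ℂ) ^ s ≠ 0 := pow_ne_zero _ (by exact_mod_cast hq)
  obtain ⟨χ, hχ, hχe, hrank⟩ := hG
  exact mem_mixedProducts (F ^ s) _ (span_pow F hF s) ((q : ℂ) ^ s) hQ G
    (fun ρ hρ => exactPair_good E hq r h hm hr hx s hs χ hχ hrank ρ (hχe ρ hρ)) n c N hN u hu

theorem semisimpleForRankOver_good {I : Type} [Finite I] (E : IntermediateField ℚ ℂ)
    [FiniteDimensional ℚ E] {q : ℕ} (hq : q ≠ 0) (r : ℕ) (h : I → ℤ[X]) (hm : ∀ i, (h i).Monic)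
    (hr : ∀ i, r < (h i).natDegree) (hx : Good (splitPrimes E) q h) :
    SemisimpleForRankOver E q r (fun i => weil q (h i)) := by
  intro V _ _ _ F hF s hs H _ _ _ G hG n c hss
  have hQ : (q : ℂ) ^ s ≠ 0 := pow_ne_zero _ (by exact_mod_cast hq)
  obtain ⟨χ, hχ, hχe, hrank⟩ := hG
  exact semisimpleAt_product (F ^ s) _ (span_pow F hF s) ((q : ℂ) ^ s) hQ G
    (fun ρ hρ => exactPair_good E hq r h hm hr hx s hs χ hχ hrank ρ (hχe ρ hρ)) n c hss

theorem tateSemisimple_good {I : Type} [Finite I] (E : IntermediateField ℚ ℂ)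
    [FiniteDimensional ℚ E] {q : ℕ} (hq : q ≠ 0) (r : ℕ) (h : I → ℤ[X]) (hm : ∀ i, (h i).Monic)
    (hr : ∀ i, r < (h i).natDegree) (hx : Good (splitPrimes E) q h) :
    TateSemisimple E q r (fun i => weil q (h i)) :=
  tateSemisimple_of E q r hq _ (semisimpleForRankOver_good E hq r h hm hr hx)
    (tateForRankOver_good E hq r h hm hr hx)

end Pool.Agent.Q219.NS
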