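import Mathlib
import Pool.Agent.Q219.NS.Pair2
import Pool.Agent.W518.DN.Strata

/-!
# Members of a stratum which is not supersingular have no supersingular roots
-/

set_option autoImplicit false

namespace Pool.Agent.Q219.NS

open Polynomial Pool.Agent.W521.Frob Pool.Agent.W518.DN Pool.Agent.W518.TC

/-- Dickson polynomials. -/
theorem exists_dickson (q : ℕ) (n : ℕ) : ∃ D : ℤ[X], ∀ (K : Type) [Field K] (z : K), z ≠ 0 →
    aeval (z + q / z) D = z ^ n + (q / z) ^ n := by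
  induction n using Nat.strong_induction_on with
  | _ n ih =>
    match n with
    | 0 =>
      refine ⟨C 2, fun K _ z _ => ?_⟩
      simp only [map_ofNat, pow_zero]
      norm_num
    | 1 =>
      refine ⟨X, fun K _ z _ => ?_⟩
      simp
    | n + 2 =>
      obtain ⟨D1, h1⟩ := ih (n + 1) (by omega)
      obtain ⟨D0, h0⟩ := ih n (by omega)
      refine ⟨X * D1 - C (q : ℤ) * D0, fun K _ z hz => ?_⟩
      rw [map_sub, map_mul, map_mul, aeval_X, h1 K z hz, h0 K z hz, aeval_C]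
      have h2 : (algebraMap ℤ K) (q : ℤ) = z * (q / z) := by
        rw [mul_div_cancel₀ _ hz]
        simp
      rw [h2]
      ring

theorem root_theta {K : Type*} [Field K] [CharZero K] {q : ℕ} (hq : q ≠ 0) {h : ℤ[X]}
    (hm : h.Monic) {z : K} (hz : aeval z (weil q h) = 0) : aeval (z + q / z) h = 0 := by
  have h0 := root_ne_zero hq hm hz
  rw [aeval_weil q h z (z + q / z) (by field_simp)] at hz
  exact (mul_eq_zero.1 hz).resolve_left (pow_ne_zero _ h0)

theorem ss_transfer {q : ℕ} (hq : q ≠ 0) {h : ℤ[X]} (hm : h.Monic)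
    (hirr : Irreducible (h.map (Int.castRingHom ℚ))) {z : ℂ} (hz : aeval z (weil q h) = 0)
    {t : ℕ} (hzt : (z ^ 2) ^ t = (q : ℂ) ^ t) {K : Type} [Field K] [CharZero K] {w : K}
    (hw : aeval w (weil q h) = 0) : (w ^ 2) ^ t = (q : K) ^ t := by
  obtain ⟨D, hD⟩ := exists_dickson q (2 * t)
  have hz0 := root_ne_zero hq hm hz
  have hw0 := root_ne_zero hq hm hw
  have hqK : (q : K) ≠ 0 := by exact_mod_cast hq
  have hqC : (q : ℂ) ≠ 0 := by exact_mod_cast hq
  have hθ := root_theta hq hm hz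
  have hθ' := root_theta hq hm hw
  have hint : IsIntegral ℚ (z + q / z) := ⟨h.map (Int.castRingHom ℚ), hm.map _, by
    rw [← aeval_def, show (Int.castRingHom ℚ) = algebraMap ℤ ℚ from rfl, aeval_map_algebraMap]
    exact hθ⟩
  have hmin : h.map (Int.castRingHom ℚ) = minpoly ℚ (z + q / z) := by
    refine minpoly.eq_of_irreducible_of_monic hirr ?_ (hm.map _)
    rw [show (Int.castRingHom ℚ) = algebraMap ℤ ℚ from rfl, aeval_map_algebraMap]
    exact hθ
  have hdvd : h.map (Int.castRingHom ℚ) ∣ (D - C (2 * (q : ℤ) ^ t)).map (Int.castRingHom ℚ) := by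
    rw [hmin]
    apply minpoly.dvd
    rw [show (Int.castRingHom ℚ) = algebraMap ℤ ℚ from rfl, aeval_map_algebraMap, map_sub,
      hD ℂ z hz0, aeval_C]
    have h2 : ((q : ℂ) / z) ^ (2 * t) = (q : ℂ) ^ t := by
      rw [pow_mul, div_pow, div_pow, hzt, ← pow_mul, mul_comm 2 t, pow_mul]
      rw [sq]
      field_simp
    rw [h2, pow_mul, hzt]
    simp only [algebraMap_int_eq, eq_intCast, Int.cast_mul, Int.cast_ofNat, Int.cast_pow,
      Int.cast_natCast]
    ring
  obtain ⟨R, hR⟩ := hdvd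
  have h3 : aeval (w + q / w) (D - C (2 * (q : ℤ) ^ t)) = 0 := by
    have h4 := congrArg (aeval (w + (q : K) / w)) hR
    rw [show (Int.castRingHom ℚ) = algebraMap ℤ ℚ from rfl, aeval_map_algebraMap] at h4
    rw [h4, _root_.map_mul (aeval (w + (q : K) / w)) (h.map (algebraMap ℤ ℚ)) R,
      aeval_map_algebraMap, hθ', zero_mul]
  rw [map_sub, hD K w hw0, aeval_C] at h3
  simp only [algebraMap_int_eq, eq_intCast, Int.cast_mul, Int.cast_ofNat, Int.cast_pow,
    Int.cast_natCast] at h3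
  have h4 : (w ^ 2) ^ t * ((q : K) / w) ^ (2 * t) = (q : K) ^ (2 * t) := by
    rw [← pow_mul, ← mul_pow, mul_div_cancel₀ _ hw0]
  have h5 : ((w ^ 2) ^ t - (q : K) ^ t) ^ 2 = 0 := by
    have h6 : (w ^ 2) ^ t = w ^ (2 * t) := by rw [← pow_mul]
    rw [h6] at h4 ⊢
    have h7 : ((q : K) / w) ^ (2 * t) = 2 * (q : K) ^ t - w ^ (2 * t) := by linear_combination h3
    rw [h7] at h4
    have h8 : (q : K) ^ (2 * t) = ((q : K) ^ t) ^ 2 := by rw [← pow_mul, mul_comm]
    rw [h8] at h4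
    linear_combination -h4
  exact sub_eq_zero.1 (pow_eq_zero_iff two_ne_zero |>.1 h5)

/-- The two forms of the Weil polynomial. -/
theorem weil_eq_lift (q g : ℕ) (h : ℤ[X]) (hd : h.natDegree = g) :
    weil q h = lift (q : ℤ) g h := by
  unfold weil lift
  rw [hd]
  refine Finset.sum_congr rfl fun k _ => ?_
  ring

theorem not_ss {p : ℕ} [hp : Fact p.Prime] {a : ℕ} (ha : 0 < a) {g : ℕ} {s : Fin g → ℚ}
    (hss : ∃ j, s j < 1 / 2) {h : ℤ[X]} (hm : h.Monic)
    (hirr : Irreducible (h.map (Int.castRingHom ℚ))) (hsl : HasSlopes p a s (weil (p ^ a) h))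
    (z : ℂ) (hz : aeval z (weil (p ^ a) h) = 0) (t : ℕ) (ht : 0 < t) :
    (z ^ 2) ^ t ≠ ((p ^ a : ℕ) : ℂ) ^ t := by
  intro hzt
  have hq : p ^ a ≠ 0 := pow_ne_zero _ hp.out.ne_zero
  obtain ⟨j, hj⟩ := hss
  unfold HasSlopes at hsl
  have hmem : (p : ℝ) ^ (-((a * s j : ℚ) : ℝ)) ∈
      ((weil (p ^ a) h).map (Int.castRingHom (AlgebraicClosure ℚ_[p]))).roots.map
      (fun x => spectralNorm ℚ_[p] (AlgebraicClosure ℚ_[p]) x) := by
    rw [hsl]
    exact Multiset.mem_add.2 (Or.inl (Multiset.mem_map_of_mem _ (Finset.mem_univ j)))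
  obtain ⟨w, hw, hwn⟩ := Multiset.mem_map.1 hmem
  have hwr : aeval w (weil (p ^ a) h) = 0 := by
    have := (mem_roots'.1 hw).2
    rw [IsRoot.def, eval_map] at this
    exact this
  have h1 := ss_transfer hq hm hirr hz hzt hwr
  have hwn' : nv p w = (p : ℝ) ^ (-((a * s j : ℚ) : ℝ)) := hwn
  have h2 := congrArg (nv p) h1
  rw [map_pow, map_pow, map_pow, hwn'] at h2
  have h3 : nv p ((p ^ a : ℕ) : AlgebraicClosure ℚ_[p]) = (p : ℝ) ^ (-(a : ℝ)) := by
    have h4 := nv_algebraMap p ((p : ℚ_[p]) ^ a)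
    rw [map_pow, map_natCast] at h4
    push_cast
    rw [h4, norm_pow, Padic.norm_p, Real.rpow_neg (Nat.cast_nonneg _), Real.rpow_natCast, inv_pow]
  rw [h3] at h2
  have hp0 : (0 : ℝ) < p := by exact_mod_cast hp.out.pos
  have hp1 : (1 : ℝ) < p := by exact_mod_cast hp.out.one_lt
  rw [← Real.rpow_natCast, ← Real.rpow_natCast, ← Real.rpow_natCast, ← Real.rpow_mul hp0.le,
    ← Real.rpow_mul hp0.le, ← Real.rpow_mul hp0.le] at h2
  have h5 := (Real.rpow_right_inj hp0 hp1.ne').1 h2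
  have ht' : (t : ℝ) ≠ 0 := by exact_mod_cast ht.ne'
  have ha' : (a : ℝ) ≠ 0 := by exact_mod_cast ha.ne'
  have h6 : ((s j : ℚ) : ℝ) = 1 / 2 := by
    push_cast at h5
    have h7 : (a : ℝ) * t * (2 * ((s j : ℚ) : ℝ) - 1) = 0 := by linear_combination -h5
    rcases mul_eq_zero.1 h7 with h8 | h8
    · exact absurd h8 (mul_ne_zero ha' ht')
    · linarith
  have h7 : s j = 1 / 2 := by
    have : ((s j : ℚ) : ℝ) = ((1 / 2 : ℚ) : ℝ) := by rw [h6]; norm_num
    exact_mod_cast this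
  exact hj.ne h7

end Pool.Agent.Q219.NS
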