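import Mathlib
import Pool.Agent.Q219.NS.NonSS
import Pool.Agent.W518.DN.Density

/-!
# The sieve in a Newton stratum
-/

set_option autoImplicit false

namespace Pool.Agent.Q219.NS

open Polynomial Filter Pool.Agent.W518.DN Pool.Agent.W518.TC
open Pool.Agent.W521.Frob (weil FlipPattern)
open Pool.Agent.W521.Bad (evF evI)
open Pool.Agent.W521.Turan (box red)
open Pool.Agent.W521.Density (polys mkPoly mkPoly_monic mkPoly_natDegree flipEvent irrEvent
  flipEvent_lower irrEvent_lower flipPattern_of_mem irreducible_of_mem)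
open Pool.Agent.W484.TB (sieve_bound_set)

variable {κ : Type} [Fintype κ] [DecidableEq κ] (g : κ → ℕ) (s : ∀ i, Fin (g i) → ℚ)
  (p : ℕ) [hp : Fact p.Prime]

omit [Fintype κ] [DecidableEq κ] in
/-- Lower bound for the scaled sizes. -/
theorem Ysz_ge {σ : ℚ} (hs : ∀ i, IsNewton (s i)) (hσ : ∀ i (h : 0 < g i), s i ⟨0, h⟩ ≤ σ)
    (a : ℕ) (j : Σ i, Fin (g i)) :
    pw p (-(a * (1 / 2 - σ)) + 1) ≤ Ysz g s p a j := by
  have hp2 := hp.out.two_le
  obtain ⟨i, t⟩ := j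
  set k := g i - (t : ℕ) with hk
  have hk1 : 1 ≤ k := by have := t.2; omega
  set μ := extS (s i) with hμ
  have hg0 : 0 < g i := lt_of_le_of_lt (Nat.zero_le _) t.2
  have h0 : μ 0 ≤ σ := by
    rw [hμ, extS, dif_pos hg0]
    exact hσ i hg0
  have hη : (1 / 2 - σ : ℚ) ≤ (k : ℚ) / 2 - Ssum μ k := by
    have h1 : Ssum μ k ≤ σ + ((k : ℚ) - 1) / 2 := by
      obtain ⟨m, hm⟩ : ∃ m, k = m + 1 := ⟨k - 1, by omega⟩
      rw [hm, Ssum, Finset.sum_range_succ']
      have h2 : ∑ j ∈ Finset.range m, μ (j + 1) ≤ ∑ _j ∈ Finset.range m, (1 / 2 : ℚ) :=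
        Finset.sum_le_sum fun j _ => extS_le (hs i).le_half (j + 1)
      simp only [Finset.sum_const, Finset.card_range, nsmul_eq_mul] at h2
      push_cast
      linarith
    linarith
  have hQ : √((p ^ a : ℕ) : ℝ) ^ k = pw p (-(a * (k / 2))) := by
    have h2 : √((p ^ a : ℕ) : ℝ) = pw p (-(a / 2)) := by
      rw [Real.sqrt_eq_iff_mul_self_eq (Nat.cast_nonneg _) (pw_pos hp2 _).le, ← pw_add hp2]
      have h3 : (-(a / 2 : ℚ) + -(a / 2 : ℚ)) = ((-(a : ℤ) : ℤ) : ℚ) := by push_cast; ring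
      rw [h3, pw_int hp2, neg_neg, zpow_natCast]; push_cast; rfl
    rw [h2, ← pw_nsmul hp2]; congr 1; ring
  have hE : (p : ℝ) ^ Eexp g s a ⟨i, t⟩ ≤ pw p (-(a * Ssum μ k + 1)) := by
    have h3 : (p : ℝ) ^ Eexp g s a ⟨i, t⟩ = pw p (((-(Eexp g s a ⟨i, t⟩ : ℤ) : ℤ) : ℚ)) := by
      rw [pw_int hp2, neg_neg, zpow_natCast]
    rw [h3, pw_le_iff hp2]
    push_cast
    have h4 : (Eexp g s a ⟨i, t⟩ : ℚ) < a * Ssum μ k + 1 := by
      apply Nat.ceil_lt_add_one
      exact mul_nonneg (Nat.cast_nonneg _) (Finset.sum_nonneg fun j _ => extS_nonneg (hs i) j)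
    linarith
  have hEpos : (0 : ℝ) < (p : ℝ) ^ Eexp g s a ⟨i, t⟩ := by
    have : 0 < p := hp.out.pos
    positivity
  rw [Ysz, hQ, le_div_iff₀ hEpos]
  calc pw p (-(a * (1 / 2 - σ)) + 1) * (p : ℝ) ^ Eexp g s a ⟨i, t⟩
      ≤ pw p (-(a * (1 / 2 - σ)) + 1) * pw p (-(a * Ssum μ k + 1)) :=
        mul_le_mul_of_nonneg_left hE (pw_pos hp2 _).le
    _ = pw p (-(a * (1 / 2 - σ)) - a * Ssum μ k) := by
      rw [← pw_add hp2]; congr 1; ring
    _ ≤ pw p (-(a * (k / 2))) := by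
      rw [pw_le_iff hp2]
      have h5 : (a : ℚ) * (1 / 2 - σ) ≤ a * ((k : ℚ) / 2 - Ssum μ k) :=
        mul_le_mul_of_nonneg_left hη (Nat.cast_nonneg _)
      linarith

/-- Scaling of the conditions modulo `l`. -/
noncomputable def scal (a : ℕ) (l : ℕ) (S : Finset ((Σ i, Fin (g i)) → ZMod l)) :
    Finset ((Σ i, Fin (g i)) → ZMod l) :=
  open Classical in
  S.image fun β j => ((p : ZMod l) ^ Eexp g s a j)⁻¹ * β j

omit [DecidableEq κ] in
theorem scal_card (a : ℕ) (l : ℕ) [Fact l.Prime] (hl : l ≠ p)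
    (S : Finset ((Σ i, Fin (g i)) → ZMod l)) : (scal g s p a l S).card = S.card := by
  classical
  unfold scal
  have hpl : (p : ZMod l) ≠ 0 := by
    intro h0
    rw [ZMod.natCast_eq_zero_iff] at h0
    rcases (Nat.dvd_prime hp.out).1 h0 with h1 | h1
    · exact (Fact.out : l.Prime).one_lt.ne' h1
    · exact hl h1
  refine Eq.trans ?_ (Finset.card_image_of_injective S
    (f := fun β j => ((p : ZMod l) ^ Eexp g s a j)⁻¹ * β j) ?_)
  · congr!
  · intro β β' h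
    funext j
    have := congrFun h j
    exact mul_left_cancel₀ (inv_ne_zero (pow_ne_zero _ hpl)) this

omit [DecidableEq κ] in
theorem mem_of_scal (a : ℕ) (l : ℕ) [Fact l.Prime] (hl : l ≠ p)
    (S : Finset ((Σ i, Fin (g i)) → ZMod l)) (b : (Σ i, Fin (g i)) → ℤ)
    (h : red l b ∈ scal g s p a l S) :
    (fun j => (((p : ℤ) ^ Eexp g s a j * b j : ℤ) : ZMod l)) ∈ S := by
  classical
  unfold scal at h
  have hpl : (p : ZMod l) ≠ 0 := by
    intro h0
    rw [ZMod.natCast_eq_zero_iff] at h0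
    rcases (Nat.dvd_prime hp.out).1 h0 with h1 | h1
    · exact (Fact.out : l.Prime).one_lt.ne' h1
    · exact hl h1
  obtain ⟨β, hβ, h2⟩ := Finset.mem_image.1 h
  have h3 : (fun j => (((p : ℤ) ^ Eexp g s a j * b j : ℤ) : ZMod l)) = β := by
    funext j
    have h4 := congrFun h2 j
    have h5 : ((b j : ℤ) : ZMod l) = ((p : ZMod l) ^ Eexp g s a j)⁻¹ * β j := h4.symm
    push_cast
    rw [h5, mul_inv_cancel_left₀ (pow_ne_zero _ hpl)]
  rw [h3]
  exact hβ

/-- The good points: flips and irreducibility. -/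
def GoodPt (U : Set ℕ) (a : ℕ) (b : (Σ i, Fin (g i)) → ℤ) : Prop :=
  (∀ i, ∃ l : ℕ, l.Prime ∧ l ≠ 2 ∧ ¬ l ∣ p ^ a ∧ l ∈ U ∧
    FlipPattern (p ^ a) (polys g fun j => (p : ℤ) ^ Eexp g s a j * b j) i l) ∧
  ∀ i, Irreducible ((polys g (fun j => (p : ℤ) ^ Eexp g s a j * b j) i).map (Int.castRingHom ℚ))

open Classical in
/-- **The sieve.** -/
theorem bad_points (U : Set ℕ) (hU : Pool.Agent.W484.TB.Dense U) (hg : ∀ i, 1 ≤ g i) :
    ∃ C : ℝ, 0 < C ∧ ∀ (a a' : ℕ), 0 < a → 0 < a' →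
      (∀ j, Real.sqrt ((p ^ a' : ℕ) : ℝ) ≤ Ysz g s p a j) → (∀ j, 1 ≤ Ysz g s p a j) →
      ((((Fintype.piFinset fun j => Finset.Icc (-(box2 g s p a j : ℤ)) (box2 g s p a j))).filter
        fun b => ¬ GoodPt g s p U a b).card : ℝ) ≤
        C * (Real.log ((p ^ a' : ℕ) : ℝ) * ((p ^ a' : ℕ) : ℝ) ^ (-(1 / 6) : ℝ)) *
          ∏ j, Ysz g s p a j := by
  obtain ⟨c₀, hc₀, hU⟩ := hU
  set G : ℕ := ∑ i, g i with hG
  have hgG : ∀ i, g i ≤ G := fun i => Finset.single_le_sum (fun _ _ => Nat.zero_le _)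
    (Finset.mem_univ i)
  have hcardι : Fintype.card (Σ i, Fin (g i)) = ∑ i, g i := by
    rw [Fintype.card_sigma]
    simp
  set cF : ℝ := 1 / (∏ i, 4 ^ g i * (g i).factorial : ℕ) with hcF
  set cI : ℝ := 1 / (∏ i, 2 * g i : ℕ) with hcI
  have hcFpos : 0 < cF := by
    have : 0 < (∏ i, 4 ^ g i * (g i).factorial : ℕ) :=
      Finset.prod_pos fun i _ => by positivity
    positivity
  have hcIpos : 0 < cI := by
    have : 0 < (∏ i, 2 * g i : ℕ) := Finset.prod_pos fun i _ => by have := hg i; positivity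
    positivity
  set l₀ : ℕ := 4 * G + 12 with hl₀
  obtain ⟨CF, hCF, hF⟩ := sieve_bound_set U c₀ hc₀ hU (Fintype.card (Σ i, Fin (g i))) cF hcFpos l₀
  obtain ⟨CI, hCI, hI⟩ := sieve_bound_set U c₀ hc₀ hU (Fintype.card (Σ i, Fin (g i))) cI hcIpos l₀
  set KK : ℝ := 2 * 4 ^ G + 1 with hKK
  have hKKpos : 0 < KK := by positivity
  set nJ := Fintype.card (Σ i, Fin (g i)) with hnJ
  refine ⟨(Fintype.card κ * (CF + CI) + 1) * KK ^ nJ, by positivity, ?_⟩
  intro a a' ha ha' hY hY1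
  have hq' : IsPrimePow (p ^ a') := hp.out.isPrimePow.pow ha'.ne'
  have hlp : ∀ l : ℕ, l.Prime → ¬ l ∣ p ^ a' → l ≠ p := by
    rintro l _ h rfl
    exact h (dvd_pow_self _ ha'.ne')
  have hlp' : ∀ l : ℕ, l.Prime → l ≠ p → ¬ l ∣ p ^ a := by
    intro l hl hne hdvd
    exact hne ((Nat.prime_dvd_prime_iff_eq hl hp.out).1 (hl.dvd_of_dvd_pow hdvd))
  set N : (Σ i, Fin (g i)) → ℕ := fun j => 2 * box2 g s p a j + 1 with hN
  set lo : (Σ i, Fin (g i)) → ℤ := fun j => -(box2 g s p a j : ℤ) with hlo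
  have hYpos : ∀ j, 0 < Ysz g s p a j := fun j => lt_of_lt_of_le one_pos (hY1 j)
  have hchoose : ∀ j : (Σ i, Fin (g i)), (1 : ℝ) ≤ (g j.1).choose j.2 := fun j => by
    exact_mod_cast Nat.succ_le_of_lt (Nat.choose_pos j.2.2.le)
  have hNge : ∀ j, Real.sqrt ((p ^ a' : ℕ) : ℝ) ≤ N j := by
    intro j
    refine (hY j).trans ?_
    have h1 : Ysz g s p a j ≤ (2 : ℝ) ^ (g j.1 - (j.2 : ℕ)) * (g j.1).choose j.2 * Ysz g s p a j := by
      have h2 : (1 : ℝ) ≤ (2 : ℝ) ^ (g j.1 - (j.2 : ℕ)) * (g j.1).choose j.2 :=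
        one_le_mul_of_one_le_of_one_le (one_le_pow₀ (by norm_num)) (hchoose j)
      exact le_mul_of_one_le_left (hYpos j).le h2
    have h3 := Nat.lt_floor_add_one ((2 : ℝ) ^ (g j.1 - (j.2 : ℕ)) * (g j.1).choose j.2 *
      Ysz g s p a j)
    have h4 : ((N j : ℕ) : ℝ) = 2 * (box2 g s p a j : ℝ) + 1 := by rw [hN]; push_cast; ring
    rw [h4]
    have h5 : (0 : ℝ) ≤ (box2 g s p a j : ℝ) := Nat.cast_nonneg _
    have h6 : ((2 : ℝ) ^ (g j.1 - (j.2 : ℕ)) * (g j.1).choose j.2 * Ysz g s p a j) <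
      (box2 g s p a j : ℝ) + 1 := h3
    linarith
  have hbox : (Fintype.piFinset fun j => Finset.Icc (-(box2 g s p a j : ℤ)) (box2 g s p a j)) =
      box lo N := by
    unfold Pool.Agent.W521.Turan.box
    congr 1
    funext j
    ext z
    rw [Finset.mem_Icc, Finset.mem_Ico, hlo, hN]
    push_cast
    constructor <;> (rintro ⟨h1, h2⟩; constructor <;> omega)
  rw [hbox]
  let ZF : κ → Finset ((Σ i, Fin (g i)) → ℤ) := fun i => (box lo N).filter
    (fun x => ∀ l : ℕ, l.Prime → l ∈ U → l₀ ≤ l → ¬ l ∣ p ^ a' →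
      red l x ∉ scal g s p a l (evF g (p ^ a) i l))
  let ZI : κ → Finset ((Σ i, Fin (g i)) → ℤ) := fun i => (box lo N).filter
    (fun x => ∀ l : ℕ, l.Prime → l ∈ U → l₀ ≤ l → ¬ l ∣ p ^ a' →
      red l x ∉ scal g s p a l (evI g i l))
  set R : ℝ := Real.log ((p ^ a' : ℕ) : ℝ) * ((p ^ a' : ℕ) : ℝ) ^ (-(1 / 6) : ℝ) with hR
  have hR0 : 0 ≤ R := by
    have h1 : (1 : ℝ) ≤ ((p ^ a' : ℕ) : ℝ) := by
      exact_mod_cast Nat.one_le_pow _ _ hp.out.pos
    exact mul_nonneg (Real.log_nonneg h1) (Real.rpow_nonneg (by linarith) _)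
  have hZF : ∀ i, ((ZF i).card : ℝ) ≤ CF * R * ∏ j, (N j : ℝ) := by
    intro i
    refine hF (p ^ a') hq' rfl (fun l => scal g s p a l (evF g (p ^ a) i l)) ?_ lo N hNge
    intro l hl _ hl0 hlq
    have : Fact l.Prime := ⟨hl⟩
    have hlq' := hlp' l hl (hlp l hl hlq)
    have h1 := flipEvent_lower g (fun i => hg i) (p ^ a) i l (fun j => by
      have := hgG j; omega) hlq'
    have h2 : evF g (p ^ a) i l = flipEvent g (p ^ a) i l := by
      unfold evF
      rw [dif_pos hl]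
    rw [scal_card g s p a l (hlp l hl hlq), h2, hcF, hcardι, one_div, inv_mul_le_iff₀ (by
      have : 0 < (∏ i, 4 ^ g i * (g i).factorial : ℕ) :=
        Finset.prod_pos fun i _ => by positivity
      exact_mod_cast this)]
    exact_mod_cast h1
  have hZI : ∀ i, ((ZI i).card : ℝ) ≤ CI * R * ∏ j, (N j : ℝ) := by
    intro i
    refine hI (p ^ a') hq' rfl (fun l => scal g s p a l (evI g i l)) ?_ lo N hNge
    intro l hl _ hl0 hlq
    have : Fact l.Prime := ⟨hl⟩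
    have h1 := irrEvent_lower g (fun i => hg i) i l (by omega)
    have h2 : evI g i l = irrEvent g i l := by
      unfold evI
      rw [dif_pos hl]
    rw [scal_card g s p a l (hlp l hl hlq), h2, hcI, hcardι, one_div, inv_mul_le_iff₀ (by
      have : 0 < (∏ i, 2 * g i : ℕ) := Finset.prod_pos fun i _ => by have := hg i; positivity
      exact_mod_cast this)]
    exact_mod_cast h1
  have hsub : (box lo N).filter (fun b => ¬ GoodPt g s p U a b) ⊆
      Finset.univ.biUnion (fun i => ZF i ∪ ZI i) := by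
    intro b hb
    obtain ⟨h1, h2⟩ := Finset.mem_filter.1 hb
    by_contra h3
    apply h2
    have h4 : ∀ i, b ∉ ZF i ∧ b ∉ ZI i := by
      intro i
      have h5 : b ∉ ZF i ∪ ZI i := fun h6 => h3 (Finset.mem_biUnion.2 ⟨i, Finset.mem_univ i, h6⟩)
      rw [Finset.mem_union] at h5
      exact ⟨fun h => h5 (Or.inl h), fun h => h5 (Or.inr h)⟩
    refine ⟨fun i => ?_, fun i => ?_⟩
    · by_contra hcon
      apply (h4 i).1
      refine Finset.mem_filter.2 ⟨h1, fun l hl hlU hl0 hlq hmem => hcon ?_⟩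
      have : Fact l.Prime := ⟨hl⟩
      have h5 := mem_of_scal g s p a l (hlp l hl hlq) _ b hmem
      have h6 : evF g (p ^ a) i l = flipEvent g (p ^ a) i l := by
        unfold evF
        rw [dif_pos hl]
      rw [h6] at h5
      exact ⟨l, hl, by omega, hlp' l hl (hlp l hl hlq), hlU,
        flipPattern_of_mem g (fun i => hg i) (p ^ a) i l _ h5⟩
    · by_contra hcon
      apply (h4 i).2
      refine Finset.mem_filter.2 ⟨h1, fun l hl hlU hl0 hlq hmem => hcon ?_⟩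
      have : Fact l.Prime := ⟨hl⟩
      have h5 := mem_of_scal g s p a l (hlp l hl hlq) _ b hmem
      have h6 : evI g i l = irrEvent g i l := by
        unfold evI
        rw [dif_pos hl]
      rw [h6] at h5
      exact irreducible_of_mem g i l _ h5
  have hcard : (((box lo N).filter (fun b => ¬ GoodPt g s p U a b)).card : ℝ) ≤
      ∑ i, (((ZF i).card : ℝ) + (ZI i).card) := by
    have h1 := Finset.card_le_card hsub
    have h2 := h1.trans (Finset.card_biUnion_le)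
    have h3 : ∑ i, (ZF i ∪ ZI i).card ≤ ∑ i, ((ZF i).card + (ZI i).card) :=
      Finset.sum_le_sum fun i _ => Finset.card_union_le _ _
    exact_mod_cast h2.trans h3
  have hprodN : ∏ j, (N j : ℝ) ≤ KK ^ nJ * ∏ j, Ysz g s p a j := by
    have h2 : KK ^ nJ * ∏ j, Ysz g s p a j = ∏ j, (KK * Ysz g s p a j) := by
      rw [Finset.prod_mul_distrib]; simp [hnJ]
    rw [h2]
    refine Finset.prod_le_prod (fun j _ => Nat.cast_nonneg _) fun j _ => ?_
    have hYj := hYpos j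
    have h3 : (box2 g s p a j : ℝ) ≤ 4 ^ G * Ysz g s p a j := by
      refine (Nat.floor_le (by positivity)).trans ?_
      refine mul_le_mul_of_nonneg_right ?_ hYj.le
      have h4 : (2 : ℝ) ^ (g j.1 - (j.2 : ℕ)) ≤ 2 ^ G :=
        pow_le_pow_right₀ (by norm_num) ((Nat.sub_le _ _).trans (hgG j.1))
      have h5 : ((g j.1).choose j.2 : ℝ) ≤ 2 ^ G := by
        have h6 : (g j.1).choose j.2 ≤ 2 ^ g j.1 := Nat.choose_le_two_pow _ _
        have h7 : (2 : ℕ) ^ g j.1 ≤ 2 ^ G := Nat.pow_le_pow_right (by norm_num) (hgG j.1)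
        exact_mod_cast h6.trans h7
      calc _ ≤ (2 : ℝ) ^ G * 2 ^ G := mul_le_mul h4 h5 (by positivity) (by positivity)
        _ = 4 ^ G := by rw [← mul_pow]; norm_num
    have h4 : ((N j : ℕ) : ℝ) = 2 * (box2 g s p a j : ℝ) + 1 := by rw [hN]; push_cast; ring
    rw [h4]
    have h5 := hY1 j
    calc _ ≤ 2 * (4 ^ G * Ysz g s p a j) + Ysz g s p a j := by linarith
      _ = KK * Ysz g s p a j := by rw [hKK]; ring
  have hprodN0 : (0 : ℝ) ≤ ∏ j, (N j : ℝ) := Finset.prod_nonneg fun j _ => Nat.cast_nonneg _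
  have hprodY0 : (0 : ℝ) ≤ ∏ j, Ysz g s p a j := Finset.prod_nonneg fun j _ => (hYpos j).le
  calc (((box lo N).filter (fun b => ¬ GoodPt g s p U a b)).card : ℝ)
      ≤ ∑ i, (((ZF i).card : ℝ) + (ZI i).card) := hcard
    _ ≤ ∑ _i : κ, ((CF + CI) * R * ∏ j, (N j : ℝ)) := by
        refine Finset.sum_le_sum fun i _ => ?_
        have h1 := hZF i
        have h2 := hZI i
        have h4 : (CF + CI) * R * ∏ j, (N j : ℝ) = CF * R * ∏ j, (N j : ℝ) +
          CI * R * ∏ j, (N j : ℝ) := by ring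
        rw [h4]
        linarith
    _ = (Fintype.card κ * (CF + CI)) * R * ∏ j, (N j : ℝ) := by
        rw [Finset.sum_const, Finset.card_univ, nsmul_eq_mul]; ring
    _ ≤ (Fintype.card κ * (CF + CI) + 1) * R * (KK ^ nJ * ∏ j, Ysz g s p a j) := by
        refine mul_le_mul ?_ hprodN hprodN0 (by positivity)
        exact mul_le_mul_of_nonneg_right (by linarith) hR0
    _ = _ := by ring

end Pool.Agent.Q219.NS
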