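import Mathlib
import Pool.Agent.Q219.NS.Count

/-!
# Power saving in every Newton stratum
-/

set_option autoImplicit false

namespace Pool.Agent.Q219.NS

open Polynomial Filter Pool.Agent.W518.DN Pool.Agent.W518.TC
open Pool.Agent.W521.Frob (weil FlipPattern)
open Pool.Agent.W521.Density (polys mkPoly mkPoly_monic mkPoly_natDegree)

variable {κ : Type} [Fintype κ] [DecidableEq κ] (g : κ → ℕ) (s : ∀ i, Fin (g i) → ℚ)
  (p : ℕ) [hp : Fact p.Prime]

omit [Fintype κ] [DecidableEq κ] in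
theorem Psi_eq (a : ℕ) (b : (Σ i, Fin (g i)) → ℤ) :
    Psi g s p a b = fun i => weil (p ^ a) (polys g (fun j => (p : ℤ) ^ Eexp g s a j * b j) i) := by
  funext i
  rw [weil_eq_lift (p ^ a) (g i) (polys g (fun j => (p : ℤ) ^ Eexp g s a j * b j) i)
    (mkPoly_natDegree (g i) _)]
  rfl

omit [Fintype κ] [DecidableEq κ] in
theorem good_of_pt (U : Set ℕ) {a : ℕ} (ha : 0 < a) (hss : ∀ i, ∃ j, s i j < 1 / 2)
    (b : (Σ i, Fin (g i)) → ℤ) (hb : GoodPt g s p U a b) (hP : Psi g s p a b ∈ Stratum g s p a) :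
    Good U (p ^ a) (polys g fun j => (p : ℤ) ^ Eexp g s a j * b j) := by
  obtain ⟨h1, h2⟩ := hb
  refine ⟨h1, h2, fun i z hz t ht => ?_⟩
  rw [Psi_eq] at hP
  exact not_ss ha (hss i) (mkPoly_monic (g i) _) (h2 i) (hP i).2.2 z hz t ht

theorem rate_le {a a' : ℕ} {η : ℚ} (h1 : (a' : ℚ) ≤ 2 * (a * η - 1))
    (h2 : 2 * (a * η - 1) < (a' : ℚ) + 1) (hη : 0 < η) :
    Real.log ((p ^ a' : ℕ) : ℝ) * ((p ^ a' : ℕ) : ℝ) ^ (-(1 / 6) : ℝ) ≤
      (2 * (η : ℝ) * Real.log p * (p : ℝ) ^ (1 / 2 : ℝ)) *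
        (a * (p : ℝ) ^ (-((a : ℝ) * (2 * η) / 6))) := by
  have hp0 : (0 : ℝ) < p := by exact_mod_cast hp.out.pos
  have hp1 : (1 : ℝ) < p := by exact_mod_cast hp.out.one_lt
  have hlog : 0 < Real.log p := Real.log_pos hp1
  have h1' : (a' : ℝ) ≤ 2 * (a * (η : ℝ) - 1) := by exact_mod_cast h1
  have h2' : 2 * (a * (η : ℝ) - 1) < (a' : ℝ) + 1 := by exact_mod_cast h2
  have hη' : (0 : ℝ) < η := by exact_mod_cast hη
  push_cast
  rw [Real.log_pow, ← Real.rpow_natCast, ← Real.rpow_mul hp0.le]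
  have h3 : (a' : ℝ) * Real.log p ≤ 2 * (η : ℝ) * Real.log p * a := by
    have : (a' : ℝ) ≤ 2 * (η : ℝ) * a := by linarith
    calc (a' : ℝ) * Real.log p ≤ (2 * (η : ℝ) * a) * Real.log p :=
          mul_le_mul_of_nonneg_right this hlog.le
      _ = _ := by ring
  have h4 : (p : ℝ) ^ ((a' : ℝ) * (-(1 / 6))) ≤
      (p : ℝ) ^ (1 / 2 : ℝ) * (p : ℝ) ^ (-((a : ℝ) * (2 * η) / 6)) := by
    rw [← Real.rpow_add hp0]
    apply Real.rpow_le_rpow_of_exponent_le hp1.le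
    linarith
  calc _ ≤ (2 * (η : ℝ) * Real.log p * a) *
        ((p : ℝ) ^ (1 / 2 : ℝ) * (p : ℝ) ^ (-((a : ℝ) * (2 * η) / 6))) :=
        mul_le_mul h3 h4 (Real.rpow_nonneg hp0.le _) (by positivity)
    _ = _ := by ring

/-- **Power saving.** -/
theorem count_strata (U : Set ℕ) (hU : Pool.Agent.W484.TB.Dense U) (hg : ∀ i, 1 ≤ g i)
    (hs : ∀ i, IsNewton (s i)) (σ : ℚ) (hσ : ∀ i (h : 0 < g i), s i ⟨0, h⟩ ≤ σ)
    (hσ2 : σ < 1 / 2) :
    ∃ C : ℝ, 0 < C ∧ ∀ a : ℕ, 0 < a → ∀ Q : (κ → ℤ[X]) → Prop,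
      (∀ h : κ → ℤ[X], (∀ i, (h i).Monic) → (∀ i, (h i).natDegree = g i) → Good U (p ^ a) h →
        Q fun i => weil (p ^ a) (h i)) →
      ({P ∈ Stratum g s p a | ¬ Q P}.ncard : ℝ) ≤
        C * (a * (p : ℝ) ^ (-((a : ℝ) * (1 - 2 * σ) / 6))) * ((Stratum g s p a).ncard : ℝ) := by
  classical
  obtain ⟨C, hC, hbad⟩ := bad_points g s p U hU hg
  have hp2 := hp.out.two_le
  have hp0 : (0 : ℝ) < p := by exact_mod_cast hp.out.pos
  have hp1 : (1 : ℝ) < p := by exact_mod_cast hp.out.one_lt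
  have hlog : 0 < Real.log p := Real.log_pos hp1
  have hss : ∀ i, ∃ j, s i j < 1 / 2 := fun i => ⟨⟨0, hg i⟩, (hσ i (hg i)).trans_lt hσ2⟩
  set η : ℚ := 1 / 2 - σ with hη
  have hη0 : 0 < η := by rw [hη]; linarith
  have hη0' : (0 : ℝ) < η := by exact_mod_cast hη0
  have hη2 : (1 - 2 * (σ : ℝ)) = 2 * (η : ℝ) := by rw [hη]; push_cast; ring
  choose a1 ha1 using fun j : (Σ i, Fin (g i)) => Ysz_large g s p hs hss (p / del (g j.1)) j
  obtain ⟨a2, ha2⟩ := exists_nat_gt (2 / η)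
  set a3 : ℕ := ∑ j, a1 j + a2 with ha3
  set D : ℝ := ∏ j : (Σ i, Fin (g i)), (p / del (g j.1)) with hD
  have hD0 : 0 < D := Finset.prod_pos fun j _ => div_pos hp0 (del_pos (hg j.1))
  set C1 : ℝ := C * (2 * (η : ℝ) * Real.log p * (p : ℝ) ^ (1 / 2 : ℝ)) * D with hC1
  have hC10 : 0 < C1 := by positivity
  set C2 : ℝ := (p : ℝ) ^ ((a3 : ℝ) * (2 * η) / 6) with hC2
  have hC20 : 0 < C2 := Real.rpow_pos_of_pos hp0 _
  refine ⟨C1 + C2, by positivity, fun a ha Q hQ => ?_⟩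
  rw [hη2]
  have ha0 : (0 : ℝ) < a := by exact_mod_cast ha
  have hrate0 : 0 ≤ (a : ℝ) * (p : ℝ) ^ (-((a : ℝ) * (2 * η) / 6)) := by positivity
  have hfin := Stratum_finite g s p ha hs
  have hncard0 : (0 : ℝ) ≤ ((Stratum g s p a).ncard : ℝ) := Nat.cast_nonneg _
  by_cases hlt : a < a3
  · -- small a
    have h1 : ({P ∈ Stratum g s p a | ¬ Q P}.ncard : ℝ) ≤ ((Stratum g s p a).ncard : ℝ) := by
      have h0 : {P ∈ Stratum g s p a | ¬ Q P} ⊆ Stratum g s p a := fun P hP => hP.1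
      exact_mod_cast Set.ncard_le_ncard h0 hfin
    refine h1.trans ?_
    refine le_mul_of_one_le_left hncard0 ?_
    have h2 : 1 ≤ C2 * ((a : ℝ) * (p : ℝ) ^ (-((a : ℝ) * (2 * η) / 6))) := by
      have h3 : (1 : ℝ) ≤ a := by exact_mod_cast ha
      have h4 : 1 ≤ C2 * (p : ℝ) ^ (-((a : ℝ) * (2 * η) / 6)) := by
        rw [hC2, ← Real.rpow_add hp0]
        apply Real.one_le_rpow hp1.le
        have h5 : (a : ℝ) ≤ a3 := by exact_mod_cast hlt.le
        have h6 : (a : ℝ) * (2 * η) ≤ a3 * (2 * η) := mul_le_mul_of_nonneg_right h5 (by positivity)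
        linarith
      calc (1 : ℝ) ≤ a * (C2 * (p : ℝ) ^ (-((a : ℝ) * (2 * η) / 6))) :=
            one_le_mul_of_one_le_of_one_le h3 h4
        _ = _ := by ring
    calc (1 : ℝ) ≤ C2 * ((a : ℝ) * (p : ℝ) ^ (-((a : ℝ) * (2 * η) / 6))) := h2
      _ ≤ _ := mul_le_mul_of_nonneg_right (by linarith) hrate0
  · push Not at hlt
    -- the auxiliary exponent
    set a' : ℕ := ⌊2 * (a * η - 1)⌋₊ with ha'
    have haη : 2 < (a : ℚ) * η := by
      have h1 : (2 / η : ℚ) < a := ha2.trans_le (by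
        have : a2 ≤ a := by omega
        exact_mod_cast this)
      rwa [div_lt_iff₀ hη0] at h1
    have ha'1 : (a' : ℚ) ≤ 2 * (a * η - 1) := Nat.floor_le (by linarith)
    have ha'2 : 2 * (a * η - 1) < (a' : ℚ) + 1 := Nat.lt_floor_add_one _
    have ha'0 : 0 < a' := by
      have : (0 : ℚ) < a' := by linarith
      exact_mod_cast this
    have hsqrt : Real.sqrt ((p ^ a' : ℕ) : ℝ) = pw p (-((a' : ℚ) / 2)) := by
      rw [Real.sqrt_eq_iff_mul_self_eq (Nat.cast_nonneg _) (pw_pos hp2 _).le, ← pw_add hp2]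
      have h3 : (-((a' : ℚ) / 2) + -((a' : ℚ) / 2)) = ((-(a' : ℤ) : ℤ) : ℚ) := by push_cast; ring
      rw [h3, pw_int hp2, neg_neg, zpow_natCast]; push_cast; rfl
    have hY : ∀ j, Real.sqrt ((p ^ a' : ℕ) : ℝ) ≤ Ysz g s p a j := by
      intro j
      refine le_trans ?_ (Ysz_ge g s p hs hσ a j)
      rw [hsqrt, pw_le_iff hp2, ← hη]
      linarith
    have hY1 : ∀ j, 1 ≤ Ysz g s p a j := by
      intro j
      refine le_trans ?_ (Ysz_ge g s p hs hσ a j)
      rw [← pw_zero (p := p), pw_le_iff hp2, ← hη]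
      linarith
    have hYd : ∀ j, (p : ℝ) ≤ del (g j.1) * Ysz g s p a j := fun j => by
      have h1 := ha1 j a ((Finset.single_le_sum (fun _ _ => Nat.zero_le _)
        (Finset.mem_univ j)).trans (show ∑ j, a1 j ≤ a by omega))
      rw [div_le_iff₀ (del_pos (hg j.1))] at h1
      linarith
    have hlow := Stratum_lower g s p ha hs hg hYd
    have hb := hbad a a' ha ha'0 hY hY1
    -- the exceptional members
    have hsub : {P ∈ Stratum g s p a | ¬ Q P} ⊆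
        (((Fintype.piFinset fun j => Finset.Icc (-(box2 g s p a j : ℤ)) (box2 g s p a j)).filter
          fun b => ¬ GoodPt g s p U a b).image (Psi g s p a) : Finset (κ → ℤ[X])) := by
      rintro P ⟨hP, hPbad⟩
      obtain ⟨b, hb, rfl⟩ := exists_of_mem_Stratum g s p ha hs hP
      rw [Finset.mem_coe]
      refine Finset.mem_image_of_mem _ (Finset.mem_filter.2 ⟨hb, fun hgood => hPbad ?_⟩)
      have h1 := good_of_pt g s p U ha hss b hgood hP
      rw [Psi_eq]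
      exact hQ _ (fun i => mkPoly_monic (g i) _) (fun i => mkPoly_natDegree (g i) _) h1
    have h1 : ({P ∈ Stratum g s p a | ¬ Q P}.ncard : ℝ) ≤
        ((((Fintype.piFinset fun j => Finset.Icc (-(box2 g s p a j : ℤ))
          (box2 g s p a j))).filter fun b => ¬ GoodPt g s p U a b).card : ℝ) := by
      have h2 := Set.ncard_le_ncard hsub (Finset.finite_toSet _)
      rw [Set.ncard_coe_finset] at h2
      exact_mod_cast h2.trans Finset.card_image_le
    have hprod : ∏ j, Ysz g s p a j ≤ D * ((Stratum g s p a).ncard : ℝ) := by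
      have h2 : ∏ j, Ysz g s p a j = D * ∏ j : (Σ i, Fin (g i)), (del (g j.1) / p * Ysz g s p a j) := by
        rw [hD, ← Finset.prod_mul_distrib]
        refine Finset.prod_congr rfl fun j _ => ?_
        have h3 := (del_pos (hg j.1)).ne'
        field_simp
      rw [h2]
      exact mul_le_mul_of_nonneg_left hlow hD0.le
    have hr := rate_le p ha'1 ha'2 hη0
    have hYprod0 : 0 ≤ ∏ j, Ysz g s p a j :=
      Finset.prod_nonneg fun j _ => zero_le_one.trans (hY1 j)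
    calc _ ≤ _ := h1
      _ ≤ C * (Real.log ((p ^ a' : ℕ) : ℝ) * ((p ^ a' : ℕ) : ℝ) ^ (-(1 / 6) : ℝ)) *
          ∏ j, Ysz g s p a j := hb
      _ ≤ C * ((2 * (η : ℝ) * Real.log p * (p : ℝ) ^ (1 / 2 : ℝ)) *
        (a * (p : ℝ) ^ (-((a : ℝ) * (2 * η) / 6)))) * (D * ((Stratum g s p a).ncard : ℝ)) := by
          refine mul_le_mul (mul_le_mul_of_nonneg_left hr hC.le) hprod hYprod0 (by positivity)
      _ = C1 * (a * (p : ℝ) ^ (-((a : ℝ) * (2 * η) / 6))) * ((Stratum g s p a).ncard : ℝ) := by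
          rw [hC1]; ring
      _ ≤ _ := by
          refine mul_le_mul_of_nonneg_right ?_ hncard0
          exact mul_le_mul_of_nonneg_right (by linarith) hrate0

end Pool.Agent.Q219.NS
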