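import Mathlib
import Pool.Agent.W518.TC.Defs
import Pool.Agent.TH44.SS.Tate

/-!
# Newton strata and products with abelian varieties of small rank: definitions
-/

set_option autoImplicit false

namespace Pool.Agent.Q219.NS

open Polynomial Module TensorProduct Pool.Agent.W484.TB Pool.Agent.TH44.SS Pool.Agent.W518.TC

/-- The slopes `s i` (`i < g`) and `1 - s i` are those of a symmetric Newton polygon of an abelian
variety of dimension `g`: they are increasing, between `0` and `1 / 2`, and the break points of the
polygon are integral. -/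
structure IsPolygon {g : ℕ} (s : Fin g → ℚ) : Prop where
  mono : Monotone s
  nonneg : ∀ i, 0 ≤ s i
  le_half : ∀ i, s i ≤ 1 / 2
  integral : ∀ x : ℚ, x < 1 / 2 →
    ∃ n : ℤ, ((Finset.univ.filter fun i => s i = x).card : ℚ) * x = n

/-- The polynomial `P` of degree `2 * g` has the slopes `s i` and `1 - s i`: the absolute values of
its roots in an algebraic closure of `ℚ_p` are `q ^ (-s i)` and `q ^ (-(1 - s i))`, where
`q = p ^ a`. -/
def WithSlopes (p : ℕ) [Fact p.Prime] (a : ℕ) {g : ℕ} (s : Fin g → ℚ) (P : ℤ[X]) : Prop :=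
  (P.map (Int.castRingHom (AlgebraicClosure ℚ_[p]))).roots.map
      (fun x => spectralNorm ℚ_[p] (AlgebraicClosure ℚ_[p]) x) =
    Finset.univ.val.map (fun i => (p : ℝ) ^ (-((a * s i : ℚ) : ℝ))) +
      Finset.univ.val.map (fun i => (p : ℝ) ^ (-((a * (1 - s i) : ℚ) : ℝ)))

/-- Tuples of Frobenius polynomials of abelian varieties of dimension `g i` over the field with
`p ^ a` elements whose Newton polygons have the slopes `s i j` and `1 - s i j`. -/
def NewtonStratum {κ : Type} (g : κ → ℕ) (s : ∀ i, Fin (g i) → ℚ) (p : ℕ) [Fact p.Prime] (a : ℕ) :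
    Set (κ → ℤ[X]) :=
  {P | ∀ i, IsFrobPoly p a (P i) ∧ (P i).natDegree = 2 * g i ∧ WithSlopes p a (s i) (P i)}

/-- The polynomial `x ^ d * h (x + Q / x)`, `d` the degree of `h`. -/
noncomputable def lift2 (Q : ℕ) (h : ℤ[X]) : ℤ[X] :=
  ∑ j ∈ Finset.range (h.natDegree + 1),
    C (h.coeff j) * ((X ^ 2 + C (Q : ℤ)) ^ j * X ^ (h.natDegree - j))

/-- The Frobenius endomorphism `Φ` of the abelian variety `B` over the field with `Q` elements is
semisimple, and either the dimension of `B` is at most `r` (the characteristic polynomial is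
`x ^ d h (x + Q / x)` with `d ≤ r`) or the eigenvalues of `Φ` have rank at most `r` over `E`. -/
def IsSmall (E : IntermediateField ℚ ℂ) (Q r : ℕ) {W : Type} [AddCommGroup W] [Module ℂ W]
    (Φ : W →ₗ[ℂ] W) : Prop :=
  (∃ h : ℤ[X], h.Monic ∧ h.natDegree ≤ r ∧ IsFrob (fun _ : Unit => lift2 Q h) Φ) ∨
    (Submodule.span ℂ {w : W | ∃ μ : ℂ, Φ w = μ • w} = ⊤ ∧ SmallRankOver E r Φ)

/-- The cohomology of degree `m` of an abelian variety whose first cohomology group is `W`. -/
def Coh (W : Type) [AddCommGroup W] [Module ℂ W] (m : ℕ) : Type := ⋀[ℂ]^m W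

section coh

variable {W : Type} [AddCommGroup W] [Module ℂ W]

noncomputable instance (m : ℕ) : AddCommGroup (Coh W m) := inferInstanceAs (AddCommGroup (⋀[ℂ]^m W))

noncomputable instance (m : ℕ) : Module ℂ (Coh W m) := inferInstanceAs (Module ℂ (⋀[ℂ]^m W))

instance [FiniteDimensional ℂ W] (m : ℕ) : FiniteDimensional ℂ (Coh W m) :=
  inferInstanceAs (FiniteDimensional ℂ (⋀[ℂ]^m W))

/-- The Frobenius endomorphism of the cohomology of degree `m`, for the endomorphism `Φ` of the
first cohomology group. -/
noncomputable def cohMap (Φ : W →ₗ[ℂ] W) (m : ℕ) : Coh W m →ₗ[ℂ] Coh W m := exteriorPower.map m Φ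

end coh

/-- Let `V`, `F` be the first cohomology group of the abelian variety `A` over the field with `Q`
elements and its Frobenius endomorphism, `H`, `G` the cohomology of `B` and its Frobenius
endomorphisms. For all spans `Z` of the classes of cycles on `B` such that every generalized Tate
class of `B` is in `Z`, every generalized Tate class of `A × B` is an eigenvector, and a
combination of products of classes of divisors on `A` and of classes in `Z`. -/
def Transfers {V : Type} [AddCommGroup V] [Module ℂ V] (F : V →ₗ[ℂ] V) {H : ℕ → Type}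
    [∀ m, AddCommGroup (H m)] [∀ m, Module ℂ (H m)] (G : ∀ m, H m →ₗ[ℂ] H m) (Q : ℂ) : Prop :=
  ∀ Z : ∀ m, Submodule ℂ (H m), TateHolds G Q Z → ∀ (i : ℕ) (t : Total V H (2 * i)),
    IsGenTate (total F G (2 * i)) Q i t → IsProductClass F G Q Z i t

/-- Let `A` be an abelian variety over the field with `Q = q ^ s` elements, isogenous to a product
of powers of abelian varieties coming from the field with `q` elements, whose characteristic
polynomials of Frobenius are the `f i`, and let `B` be an abelian variety over the field with `Q`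
elements, of dimension at most `r` or with eigenvalues of Frobenius of rank at most `r` over `E`.
Let `Z` be the span of the classes of cycles on `B` (over the algebraic closure). If every Tate
class of `B` is in `Z` (the Tate conjecture for `B`) then every generalized Tate class of the
abelian variety `A × B` is an eigenvector and a combination of products of classes of divisors on
`A` and of classes in `Z`. -/
def TateTimesAbelian {I : Type} (E : IntermediateField ℚ ℂ) (q r : ℕ) (f : I → ℤ[X]) : Prop :=
  ∀ (V : Type) [AddCommGroup V] [Module ℂ V] [FiniteDimensional ℂ V] (F : V →ₗ[ℂ] V),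
    IsFrob f F → ∀ s : ℕ, 0 < s →
    ∀ (W : Type) [AddCommGroup W] [Module ℂ W] [FiniteDimensional ℂ W] (Φ : W →ₗ[ℂ] W),
      IsSmall E (q ^ s) r Φ → Transfers (F ^ s) (cohMap Φ) ((q : ℂ) ^ s)

end Pool.Agent.Q219.NS
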