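import Mathlib
import Pool.Agent.Q219.NS.Pair2
import Pool.Agent.Q219.NS.Defs
import Pool.Agent.W521.Pole

/-!
# Abelian varieties of small dimension or small rank
-/

set_option autoImplicit false

namespace Pool.Agent.Q219.NS

open Polynomial Module TensorProduct Pool.Agent.W484.AA Pool.Agent.W484.BB Pool.Agent.W521.Frob
  Pool.Agent.W521.Count Pool.Agent.W521.Bad Pool.Agent.W521.Descent Pool.Agent.W521.Density
  Pool.Agent.W521.Criterion Pool.Agent.W484.HS Pool.Agent.W484.TB Pool.Agent.TH44.SS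

/-- Conjugates of products of roots are products of roots. -/
theorem conj_prod {m : ℕ} (χ : ℚ[X]) (hχ : χ ≠ 0) (v : Fin m → ℂ) (hv : ∀ l, aeval (v l) χ = 0)
    {y : ℂ} (hy : aeval y (minpoly ℚ (∏ l, v l)) = 0) :
    ∃ w : Fin m → ℂ, (∀ l, aeval (w l) χ = 0) ∧ ∏ l, w l = y := by
  have hva : ∀ l, IsAlgebraic ℚ (v l) := fun l => ⟨χ, hχ, hv l⟩
  have hpa : IsAlgebraic ℚ (∏ l, v l) := by
    have h1 : IsIntegral ℚ (∏ l, v l) := IsIntegral.prod _ fun l _ => (hva l).isIntegral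
    exact h1.isAlgebraic
  have hya : IsAlgebraic ℚ y := ⟨_, minpoly.ne_zero hpa.isIntegral, hy⟩
  have hvm : ∀ l, v l ∈ algebraicClosure ℚ ℂ := fun l => mem_algebraicClosure_iff.2 (hva l)
  have hym : y ∈ algebraicClosure ℚ ℂ := mem_algebraicClosure_iff.2 hya
  let L := algebraicClosure ℚ ℂ
  let v' : Fin m → L := fun l => ⟨v l, hvm l⟩
  let y' : L := ⟨y, hym⟩
  have halg : Algebra.IsAlgebraic ℚ L := algebraicClosure.isAlgebraic ℚ ℂ
  have hclos : IsAlgClosure ℚ L := algebraicClosure.isAlgClosure ℚ ℂ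
  have hnorm : Normal ℚ L := IsAlgClosure.normal ℚ L
  have hp : algebraMap L ℂ (∏ l, v' l) = ∏ l, v l := by
    rw [map_prod]
    rfl
  have h1 : aeval y' (minpoly ℚ (∏ l, v' l)) = 0 := by
    apply (algebraMap L ℂ).injective
    rw [← Polynomial.aeval_algebraMap_apply, map_zero]
    have h2 : minpoly ℚ (∏ l, v' l) = minpoly ℚ (∏ l, v l) := by
      rw [← minpoly.algebraMap_eq (B := L) (B' := ℂ) (algebraMap L ℂ).injective (∏ l, v' l), hp]
    rw [h2]
    exact hy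
  obtain ⟨σ, hσ⟩ := minpoly.exists_algEquiv_of_root' (K := ℚ) (L := L)
    (Algebra.IsAlgebraic.isAlgebraic (∏ l, v' l)) h1
  refine ⟨fun l => (σ (v' l) : L), fun l => ?_, ?_⟩
  · have h3 : aeval (σ (v' l)) χ = 0 := by
      rw [Polynomial.aeval_algHom_apply σ (v' l) χ]
      have h4 : aeval (v' l) χ = 0 := by
        apply (algebraMap L ℂ).injective
        rw [← Polynomial.aeval_algebraMap_apply, map_zero]
        exact hv l
      rw [h4, map_zero]
    have h5 := congrArg (algebraMap L ℂ) h3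
    rw [← Polynomial.aeval_algebraMap_apply, map_zero] at h5
    exact h5
  · rw [map_prod] at hσ
    have h6 := congrArg (algebraMap L ℂ) hσ
    rw [map_prod] at h6
    exact h6

/-- Up to a power in the group generated by `E` and the numbers `u`. -/
def InRad (E : IntermediateField ℚ ℂ) {r : ℕ} (u : Fin r → ℂ) (ρ : ℂ) : Prop :=
  ∃ (N : ℕ) (y : ℂ) (m : Fin r → ℤ), 0 < N ∧ y ∈ E ∧ y ≠ 0 ∧ ρ ^ N = y * ∏ j, u j ^ m j

theorem inRad_one (E : IntermediateField ℚ ℂ) {r : ℕ} (u : Fin r → ℂ) : InRad E u 1 :=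
  ⟨1, 1, 0, Nat.one_pos, one_mem E, one_ne_zero, by simp⟩

theorem inRad_mul {E : IntermediateField ℚ ℂ} {r : ℕ} {u : Fin r → ℂ} (hu : ∀ j, u j ≠ 0)
    {ρ σ : ℂ} (h1 : InRad E u ρ) (h2 : InRad E u σ) : InRad E u (ρ * σ) := by
  obtain ⟨N, y, m, hN, hy, hy0, h⟩ := h1
  obtain ⟨N', y', m', hN', hy', hy0', h'⟩ := h2
  refine ⟨N * N', y ^ N' * y' ^ N, fun j => m j * N' + m' j * N, Nat.mul_pos hN hN',
    mul_mem (pow_mem hy _) (pow_mem hy' _), mul_ne_zero (pow_ne_zero _ hy0) (pow_ne_zero _ hy0'), ?_⟩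
  rw [mul_pow, pow_mul ρ, h, mul_comm N N', pow_mul σ, h', mul_pow, mul_pow, ← Finset.prod_pow,
    ← Finset.prod_pow]
  have h3 : ∏ j, u j ^ (m j * (N' : ℤ) + m' j * (N : ℤ)) =
      (∏ j, (u j ^ m j) ^ N') * ∏ j, (u j ^ m' j) ^ N := by
    rw [← Finset.prod_mul_distrib]
    refine Finset.prod_congr rfl fun j _ => ?_
    rw [zpow_add₀ (hu j), zpow_mul, zpow_mul, zpow_natCast, zpow_natCast]
  rw [h3]
  ring

theorem inRad_inv {E : IntermediateField ℚ ℂ} {r : ℕ} {u : Fin r → ℂ}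
    {ρ : ℂ} (h1 : InRad E u ρ) : InRad E u ρ⁻¹ := by
  obtain ⟨N, y, m, hN, hy, hy0, h⟩ := h1
  refine ⟨N, y⁻¹, fun j => - m j, hN, inv_mem hy, inv_ne_zero hy0, ?_⟩
  rw [inv_pow, h, mul_inv, ← Finset.prod_inv_distrib]
  congr 1
  refine Finset.prod_congr rfl fun j _ => ?_
  rw [zpow_neg]

theorem rankLEOver_iff {E : IntermediateField ℚ ℂ} {r : ℕ} {S : Set ℂ} :
    RankLEOver E r S ↔ ∃ u : Fin r → ℂ, (∀ j, u j ≠ 0) ∧ ∀ ρ ∈ S, InRad E u ρ := Iff.rfl

/-- The eigenvalues on the exterior powers. -/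
theorem smallRankOver_ext {W : Type} [AddCommGroup W] [Module ℂ W] [FiniteDimensional ℂ W]
    {E : IntermediateField ℚ ℂ} {r : ℕ} (Φ : W →ₗ[ℂ] W)
    (hspan : Submodule.span ℂ {w : W | ∃ μ : ℂ, Φ w = μ • w} = ⊤) (h : SmallRankOver E r Φ)
    (m : ℕ) : SmallRankOver E r (exteriorPower.map m Φ) := by
  classical
  obtain ⟨χ, hχ, he, u, hu0, hu⟩ := h
  let R : Finset ℂ := (χ.map (algebraMap ℚ ℂ)).roots.toFinset
  have hR : ∀ ρ : ℂ, ρ ∈ R ↔ aeval ρ χ = 0 := by
    intro ρ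
    have h0 : χ.map (algebraMap ℚ ℂ) ≠ 0 :=
      (Polynomial.map_ne_zero_iff (algebraMap ℚ ℂ).injective).2 hχ
    rw [Multiset.mem_toFinset, mem_roots h0, IsRoot.def, eval_map, aeval_def]
  have halg : ∀ v : Fin m → R, IsAlgebraic ℚ (∏ l, (v l : ℂ)) := by
    intro v
    have h1 : IsIntegral ℚ (∏ l, (v l : ℂ)) := IsIntegral.prod _ fun l _ =>
      (show IsAlgebraic ℚ (v l : ℂ) from ⟨χ, hχ, (hR _).1 (v l).2⟩).isIntegral
    exact h1.isAlgebraic
  -- the eigenvalues of `Φ` are roots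
  have hspan' : Submodule.span ℂ {w : W | ∃ μ : ℂ, μ ∈ {ρ : ℂ | aeval ρ χ = 0} ∧ Φ w = μ • w} = ⊤ := by
    rw [← top_le_iff, ← hspan]
    refine Submodule.span_le.2 ?_
    rintro w ⟨μ, hw⟩
    by_cases hw0 : w = 0
    · subst hw0
      exact Submodule.zero_mem _
    · exact Submodule.subset_span ⟨μ, he μ (Module.End.hasEigenvalue_of_hasEigenvector
        ⟨Module.End.mem_eigenspace_iff.2 hw, hw0⟩), hw⟩
  obtain ⟨ι, _, B, α, hB, hα⟩ := Pool.Agent.W521.Pole.exists_extBasis Φ _ hspan' m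
  refine ⟨∏ v : Fin m → R, minpoly ℚ (∏ l, (v l : ℂ)), ?_, ?_, u, hu0, ?_⟩
  · exact Finset.prod_ne_zero_iff.2 fun v _ => minpoly.ne_zero (halg v).isIntegral
  · intro μ hμ
    have h1 := Pool.Agent.W521.Pole.finrank_eigenspace B (exteriorPower.map m Φ) α hB μ
    have h2 : finrank ℂ (Module.End.eigenspace (exteriorPower.map m Φ) μ) ≠ 0 := by
      intro h0
      exact hμ (Submodule.finrank_eq_zero.1 h0)
    rw [h1] at h2
    obtain ⟨⟨i, hi⟩⟩ := (Nat.card_ne_zero.1 h2).1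
    obtain ⟨v, hv1, hv2⟩ := hα i
    rw [map_prod]
    refine Finset.prod_eq_zero (Finset.mem_univ (fun l => (⟨v l, (hR _).2 (hv1 l)⟩ : R))) ?_
    rw [← hi, hv2]
    exact minpoly.aeval ℚ (∏ l, v l)
  · intro y hy
    rw [Set.mem_ofPred_eq, map_prod, Finset.prod_eq_zero_iff] at hy
    obtain ⟨v, _, hy⟩ := hy
    obtain ⟨w, hw1, hw2⟩ := conj_prod χ hχ (fun l => (v l : ℂ)) (fun l => (hR _).1 (v l).2) hy
    change InRad E u y
    rw [← hw2]
    exact Finset.prod_induction _ (InRad E u) (fun a b => inRad_mul hu0) (inRad_one E u)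
      fun l _ => hu (w l) (hw1 l)

/-- Eigenvalues of the Frobenius endomorphism of an abelian variety of dimension at most `r`. -/
theorem smallRankOver_of_dim {W : Type} [AddCommGroup W] [Module ℂ W]
    (E : IntermediateField ℚ ℂ) {q r : ℕ} (hq : q ≠ 0) (h : ℤ[X]) (hm : h.Monic)
    (hd : h.natDegree ≤ r) (Φ : W →ₗ[ℂ] W)
    (hΦ : ∀ z, Module.End.HasEigenvalue Φ z → aeval z (weil q h) = 0) : SmallRankOver E r Φ := by
  classical
  have hqC : (q : ℂ) ≠ 0 := by exact_mod_cast hq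
  let T : Finset ℂ := (h.map (algebraMap ℤ ℂ)).roots.toFinset
  have hTcard : T.card ≤ r := by
    refine (Multiset.toFinset_card_le _).trans ((card_roots' _).trans ?_)
    rw [hm.natDegree_map]
    exact hd
  have hT : ∀ θ : ℂ, aeval θ h = 0 → θ ∈ T := by
    intro θ hθ
    rw [Multiset.mem_toFinset, mem_roots (hm.map _).ne_zero, IsRoot.def, eval_map, ← aeval_def]
    exact hθ
  have hroot : ∀ θ : ℂ, ∃ α : ℂ, α ^ 2 + q = θ * α := by
    intro θ
    obtain ⟨s, hs⟩ := IsAlgClosed.exists_pow_nat_eq (θ ^ 2 - 4 * q) two_pos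
    refine ⟨(θ + s) / 2, ?_⟩
    linear_combination (1 / 4 : ℂ) * hs
  choose al hal using hroot
  have hal0 : ∀ θ, al θ ≠ 0 := by
    intro θ h0
    have := hal θ
    rw [h0, mul_zero, zero_pow two_ne_zero, zero_add] at this
    exact hqC this
  let e := T.equivFin
  let u : Fin r → ℂ := fun j => if hj : (j : ℕ) < T.card then al (e.symm ⟨j, hj⟩) else 1
  have hu0 : ∀ j, u j ≠ 0 := by
    intro j
    simp only [u]
    split_ifs with hj
    · exact hal0 _
    · exact one_ne_zero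
  refine ⟨(weil q h).map (algebraMap ℤ ℚ), ((weil_monic q hm).map _).ne_zero, ?_, u, hu0, ?_⟩
  · intro z hz
    rw [aeval_map_algebraMap]
    exact hΦ z hz
  · intro z hz
    rw [Set.mem_ofPred_eq, aeval_map_algebraMap] at hz
    change InRad E u z
    have hz0 : z ≠ 0 := root_ne_zero hq hm hz
    have hθ : z ^ 2 + q = (z + q / z) * z := by
      field_simp
    have h1 : aeval (z + q / z) h = 0 := by
      have h2 := aeval_weil q h z (z + q / z) hθ
      rw [hz] at h2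
      exact (mul_eq_zero.1 h2.symm).resolve_left (pow_ne_zero _ hz0)
    have hj := (e ⟨_, hT _ h1⟩).2
    have huj : u ⟨e ⟨_, hT _ h1⟩, hj.trans_le hTcard⟩ = al (z + q / z) := by
      simp only [u]
      rw [dif_pos hj]
      congr 1
      have : e.symm ⟨(e ⟨_, hT _ h1⟩ : ℕ), hj⟩ = ⟨_, hT _ h1⟩ := by
        rw [Fin.eta, Equiv.symm_apply_apply]
      rw [this]
    have hin : InRad E u (al (z + q / z)) := by
      rw [← huj]
      refine ⟨1, 1, Pi.single ⟨e ⟨_, hT _ h1⟩, hj.trans_le hTcard⟩ 1, Nat.one_pos, one_mem E,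
        one_ne_zero, ?_⟩
      rw [pow_one, one_mul, Finset.prod_eq_single ⟨e ⟨_, hT _ h1⟩, hj.trans_le hTcard⟩]
      · rw [Pi.single_eq_same, zpow_one]
      · intro j _ hj
        rw [Pi.single_eq_of_ne hj, zpow_zero]
      · intro hn
        exact absurd (Finset.mem_univ _) hn
    have hqin : InRad E u (q : ℂ) :=
      ⟨1, q, 0, Nat.one_pos, natCast_mem E q, hqC, by simp⟩
    have h3 := hal (z + q / z)
    set a := al (z + q / z) with ha
    have h4 : (a - z) * (a * z - q) = 0 := by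
      have h5 : a ^ 2 * z + q * z = (z ^ 2 + q) * a := by
        have : (a ^ 2 + q) * z = (z + q / z) * a * z := by rw [h3]
        rw [show (z + q / z) * a * z = ((z + q / z) * z) * a by ring, ← hθ] at this
        linear_combination this
      linear_combination h5
    rcases mul_eq_zero.1 h4 with h5 | h5
    · rw [← sub_eq_zero.1 h5]
      exact hin
    · have h6 : z = q * a⁻¹ := by
        have := sub_eq_zero.1 h5
        rw [eq_mul_inv_iff_mul_eq₀ (hal0 _)]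
        linear_combination this
      rw [h6]
      exact inRad_mul hu0 hqin (inRad_inv hin)

theorem IsSmall.ext {W : Type} [AddCommGroup W] [Module ℂ W] [FiniteDimensional ℂ W]
    {E : IntermediateField ℚ ℂ} {Q r : ℕ} (hQ : Q ≠ 0) {Φ : W →ₗ[ℂ] W} (h : IsSmall E Q r Φ)
    (m : ℕ) : SmallRankOver E r (exteriorPower.map m Φ) := by
  rcases h with ⟨h, hm, hd, hf⟩ | ⟨h1, h2⟩
  · have h1 : Submodule.span ℂ {w : W | ∃ μ : ℂ, Φ w = μ • w} = ⊤ := by
      rw [← top_le_iff, ← hf]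
      refine Submodule.span_mono ?_
      rintro w ⟨_, z, _, hz⟩
      exact ⟨z, hz⟩
    refine smallRankOver_ext Φ h1 (smallRankOver_of_dim E hQ h hm hd Φ fun z hz => ?_) m
    obtain ⟨d, b, μ, hμE, hμ⟩ := Pool.Agent.H925R2.exists_eigenbasis Φ
      {z : ℂ | aeval z (weil Q h) = 0} (by
        rw [← top_le_iff, ← hf]
        refine Submodule.span_mono ?_
        rintro w ⟨_, z, hz1, hz⟩
        exact ⟨z, hz1, hz⟩)
    have h3 := Pool.Agent.W521.Pole.finrank_eigenspace b Φ μ hμ z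
    have h2 : finrank ℂ (Module.End.eigenspace Φ z) ≠ 0 := by
      intro h0
      exact hz (Submodule.finrank_eq_zero.1 h0)
    rw [h3] at h2
    obtain ⟨⟨i, hi⟩⟩ := (Nat.card_ne_zero.1 h2).1
    rw [← hi]
    exact hμE i
  · exact smallRankOver_ext Φ h1 h2 m

theorem tateTimesAbelian_of {I : Type} {E : IntermediateField ℚ ℂ} {q r : ℕ} (hq : q ≠ 0)
    {f : I → ℤ[X]} (h : TateSemisimple E q r f) : TateTimesAbelian E q r f := by
  intro V _ _ _ F hF s hs W _ _ _ Φ hΦ Z hZ i t ht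
  exact h V F hF s hs (Coh W) (cohMap Φ)
    (fun m => hΦ.ext (pow_ne_zero _ hq) m) Z hZ i t ht

end Pool.Agent.Q219.NS
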