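import Mathlib
import Pool.Agent.Q219.NS.Pair2
import Pool.Agent.Q219.NS.NonSS
import Pool.Agent.W518.DN.Final1

/-!
# Good families and divisor classes
-/

set_option autoImplicit false

namespace Pool.Agent.Q219.NS

open Polynomial Module NumberField Pool.Agent.W521.Frob Pool.Agent.W521.Criterion
  Pool.Agent.W518.TC Pool.Agent.W518.DN

theorem aeval_isRoot {K : Type*} [CommRing K] (f : ℤ[X]) (z : K) :
    (f.map (Int.castRingHom K)).IsRoot z ↔ aeval z f = 0 := by
  rw [IsRoot.def, eval_map]
  rfl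

/-- **Good families have the property of the theorem on Newton strata.** -/
theorem tateGenerated_good {κ : Type} [Fintype κ] {U : Set ℕ} (p : ℕ) [hp : Fact p.Prime] (a : ℕ)
    (h : κ → ℤ[X]) (hm : ∀ i, (h i).Monic) (hx : Good U (p ^ a) h) :
    TateGenerated p a fun i => weil (p ^ a) (h i) := by
  classical
  obtain ⟨hpat, hirrQ, -⟩ := hx
  have hq : p ^ a ≠ 0 := pow_ne_zero _ hp.out.ne_zero
  set g : κ → ℕ := fun i => (h i).natDegree with hg
  have hd : ∀ i, (h i).natDegree = g i := fun i => rfl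
  have hwl : (fun i => weil (p ^ a) (h i)) = fun i => lift ((p ^ a : ℕ) : ℤ) (g i) (h i) :=
    funext fun i => weil_eq_lift (p ^ a) (g i) (h i) rfl
  rw [hwl]
  have hPm : ∀ i, (lift ((p ^ a : ℕ) : ℤ) (g i) (h i)).Monic := fun i =>
    (lift_monic _ _ _ (hm i) (hd i)).1
  intro n T hT Ω _ _ _ V _ _ F hV m x hx
  set f : ℤ[X] := T * ∏ i, (lift ((p ^ a : ℕ) : ℤ) (g i) (h i) * h i) with hf
  have hfm : f.Monic := hT.frob.monic.mul (monic_prod_of_monic _ _ fun i _ => (hPm i).mul (hm i))
  set PQ : ℚ[X] := f.map (Int.castRingHom ℚ) with hPQ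
  have hLN : NumberField PQ.SplittingField :=
    { to_charZero := charZero_of_injective_algebraMap (algebraMap ℚ PQ.SplittingField).injective
      to_finiteDimensional := inferInstance }
  have hsf : IsSplittingField ℚ PQ.SplittingField PQ := Polynomial.IsSplittingField.splittingField PQ
  have hnormal : Normal ℚ PQ.SplittingField := Normal.of_isSplittingField PQ
  have hGal : IsGalois ℚ PQ.SplittingField := ⟨⟩
  have hsplit : (f.map (Int.castRingHom PQ.SplittingField)).Splits := by
    have h1 := SplittingField.splits PQ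
    convert h1 using 1
    rw [hPQ, Polynomial.map_map]; congr 1
  have hf0 : f.map (Int.castRingHom PQ.SplittingField) ≠ 0 := (hfm.map _).ne_zero
  have hTs : (T.map (Int.castRingHom PQ.SplittingField)).Splits :=
    hsplit.of_dvd hf0 (Polynomial.map_dvd _ (dvd_mul_right _ _))
  have hsub : ∀ i, (((lift ((p ^ a : ℕ) : ℤ) (g i) (h i)) * h i).map
      (Int.castRingHom PQ.SplittingField)).Splits := by
    intro i
    refine hsplit.of_dvd hf0 ?_
    exact Polynomial.map_dvd _ (dvd_mul_of_dvd_right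
      (Finset.dvd_prod_of_mem _ (Finset.mem_univ i)) _)
  have hPs : ∀ i, ((lift ((p ^ a : ℕ) : ℤ) (g i) (h i)).map
      (Int.castRingHom PQ.SplittingField)).Splits :=
    fun i => (hsub i).of_dvd (((hPm i).mul (hm i)).map _).ne_zero
      (Polynomial.map_dvd _ (dvd_mul_right _ _))
  obtain ⟨φ⟩ : Nonempty (PQ.SplittingField →+* ℂ) := inferInstance
  have hTss : ∀ z : PQ.SplittingField, (T.map (Int.castRingHom PQ.SplittingField)).IsRoot z →
      z ≠ 0 ∧ SS (p ^ a) z := by
    intro z hz
    have h1 : T.map (Int.castRingHom ℂ) = (T.map (Int.castRingHom PQ.SplittingField)).map φ := by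
      rw [Polynomial.map_map]; congr 1; exact RingHom.ext_int _ _
    have h2 : (T.map (Int.castRingHom ℂ)).IsRoot (φ z) := by rw [h1]; exact hz.map
    obtain ⟨t, ht, h3⟩ := hT.root _ h2
    have h4 : (z ^ 2) ^ t = (((p ^ a : ℕ) : ℕ) : PQ.SplittingField) ^ t := by
      apply φ.injective
      rw [map_pow, map_pow, h3, map_pow, map_natCast]; push_cast; rfl
    refine ⟨?_, t, ht, h4⟩
    rintro rfl
    rw [zero_pow two_ne_zero, zero_pow ht.ne'] at h4
    exact pow_ne_zero t (by exact_mod_cast hq) h4.symm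
  have hL : ∀ i, ∀ z : ℂ, aeval z (weil (p ^ a) (h i)) = 0 →
      ∃ x : PQ.SplittingField, φ x = z := by
    intro i z hz
    have h1 : (lift ((p ^ a : ℕ) : ℤ) (g i) (h i)).map (Int.castRingHom ℂ) =
        ((lift ((p ^ a : ℕ) : ℤ) (g i) (h i)).map (Int.castRingHom PQ.SplittingField)).map φ := by
      rw [Polynomial.map_map]; congr 1; exact RingHom.ext_int _ _
    have h2 : ((lift ((p ^ a : ℕ) : ℤ) (g i) (h i)).map (Int.castRingHom ℂ)).IsRoot z := by
      rw [aeval_isRoot, ← weil_eq_lift (p ^ a) (g i) (h i) rfl]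
      exact hz
    have h3 := (hPs i).eq_prod_roots_of_monic ((hPm i).map _)
    rw [h1, h3, Polynomial.map_multiset_prod, IsRoot.def, eval_multiset_prod,
      Multiset.prod_eq_zero_iff, Multiset.map_map, Multiset.map_map] at h2
    obtain ⟨x, -, hx⟩ := Multiset.mem_map.1 h2
    refine ⟨x, ?_⟩
    simp only [Function.comp_apply, Polynomial.map_sub, map_X, map_C, eval_sub, eval_X, eval_C]
      at hx
    exact (sub_eq_zero.1 hx).symm
  refine good_of_flips_ss (L := PQ.SplittingField) hq hm hd hirrQ hPs ?_ F n T hT.frob.monic hTs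
    hTss hV m x hx
  intro i0
  obtain ⟨l, hl, hl2, hlq, -, hfp⟩ := hpat i0
  obtain ⟨σ, α₀, hα₀, h1, h2, h3⟩ := Pool.Agent.W521.Frob.exists_flip hm PQ.SplittingField
    (splits_h hq hm PQ.SplittingField φ hL i0) (quad_L hq hm PQ.SplittingField φ hL i0) hl hl2 hlq hfp
  have hqL : ((p ^ a : ℕ) : PQ.SplittingField) ≠ 0 := by exact_mod_cast hq
  have hα0 := root_ne_zero hq (hm i0) hα₀
  refine ⟨σ, α₀ + ((p ^ a : ℕ) : PQ.SplittingField) / α₀, ?_, ?_⟩
  · rw [aeval_isRoot]
    exact ((root_iff hq (hm i0) α₀).1 hα₀).2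
  · intro i π hπ
    rw [aeval_isRoot, ← weil_eq_lift (p ^ a) (g i) (h i) rfl] at hπ
    have hπ0 := root_ne_zero hq (hm i) hπ
    constructor
    · intro he
      have h4 : (π - α₀) * (π * α₀ - ((p ^ a : ℕ) : PQ.SplittingField)) = 0 := by
        field_simp at he
        linear_combination he
      rcases mul_eq_zero.1 h4 with h5 | h5
      · rw [sub_eq_zero.1 h5]
        exact h1
      · have h6 : π = ((p ^ a : ℕ) : PQ.SplittingField) / α₀ := by
          rw [eq_div_iff hα0]
          exact sub_eq_zero.1 h5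
        rw [h6, map_div₀, h1, map_natCast, div_div_cancel₀ hqL]
    · intro he
      refine h3 i π hπ ?_ ?_
      · rintro rfl
        exact he rfl
      · rintro rfl
        apply he
        rw [div_div_cancel₀ hqL, add_comm]

end Pool.Agent.Q219.NS
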